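import Pool.Agent.Helper60.CR.MainE

/-!
# MP_c423d7_an: spaces with an unconditional basis, finite cotype and no copy of `ℓ_2`

A real Banach space which contains an unconditional basic sequence whose closed span has finite
cotype and no subspace isomorphic to `ℓ_2` contains a continuum of pairwise non-isomorphic
infinite-dimensional closed subspaces. More precisely there are finite-dimensional subspaces
`F n false`, `F n true` such that the closed spans `Y σ` of the `F n (σ n)` are isomorphic if and
only if the sequences differ at finitely many places (the space is ergodic).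

Idea: sums of two-dimensional pieces, embedded by `z ↦ z₁ f₁ + z₂ f₂ + (z₁ + z₂) f₃ + (z₁ + λ z₂) f₄`
with disjoint vectors `f_c`; the cross ratio of the four directions distinguishes different values
of `λ`. The pieces are taken from finite combinatorial gadgets: for every colouring of the index set by four
colours there is a combination of indices of one colour `c` for which the component `c` has a much
larger norm than the other ones. Gadgets exist, by a game dichotomy, unless the space `ℓ_p` given by
Krivine's theorem is a block subspace; for `p ≠ 2` one then works in `ℓ_p(ℓ_2^n)`.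
-/

open Pool.Agent.Helper60.CR

theorem Pool.Agent.Results.MP_c423d7_an.NoHilbertSubspace.result
    {X : Type*} [NormedAddCommGroup X] [NormedSpace ℝ X] [CompleteSpace X]
    (e : ℕ → X) (C : ℝ) (he : Uncond e C) (q : ℕ) (Cq : ℝ)
    (hc : Cotype (Submodule.span ℝ (Set.range e)).topologicalClosure q Cq)
    (h2 : ∀ Z : Submodule ℝ X, Z ≤ (Submodule.span ℝ (Set.range e)).topologicalClosure →
      IsEmpty (Z ≃L[ℝ] lp (fun _ : ℕ => ℝ) 2)) :
    ∃ F : ℕ → Bool → Submodule ℝ X, (∀ n b, FiniteDimensional ℝ (F n b)) ∧
      (∀ σ : ℕ → Bool, ¬ FiniteDimensional ℝ (⨆ n, F n (σ n)).topologicalClosure) ∧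
      (∀ σ τ : ℕ → Bool, Nonempty ((⨆ n, F n (σ n)).topologicalClosure ≃L[ℝ]
        (⨆ n, F n (τ n)).topologicalClosure) ↔ {n | σ n ≠ τ n}.Finite) ∧
      ∃ s : ℝ → ℕ → Bool, ∀ r t : ℝ, r ≠ t →
        IsEmpty ((⨆ n, F n (s r n)).topologicalClosure ≃L[ℝ]
          (⨆ n, F n (s t n)).topologicalClosure) := by
  classical
  obtain ⟨F, h1, _, h3, h4⟩ := main_e e C he q Cq hc h2
  obtain ⟨A, hA⟩ := Pool.Agent.Helper52.CS.family
  refine ⟨F, h1, h3, h4, fun r n => decide (n ∈ A r), fun r t hrt => ⟨fun Φ => ?_⟩⟩
  refine (hA r t hrt) (((h4 _ _).1 ⟨Φ⟩).subset ?_)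
  rintro n ⟨hn1, hn2⟩
  change decide (n ∈ A r) ≠ decide (n ∈ A t)
  rw [decide_eq_true hn1, decide_eq_false hn2]
  decide
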