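import Pool.Agent.Helper52.CS.Final

/-!
# MP_c423d7_an: continuum many subspaces of type 2 spaces with a subsymmetric basis

A real Banach space containing a subsymmetric sequence whose closed span has type 2 and is not
isomorphic to `ℓ_2` contains a continuum of pairwise non-isomorphic infinite-dimensional closed
subspaces; in particular every space of type 2 with a subsymmetric (for instance symmetric) basis
which is not isomorphic to `ℓ_2` does.

Idea: in the norm of the sequence flat vectors are much smaller than in `ℓ_2` (otherwise the span
would be `ℓ_2`). Let `E_m` be the kernel of a random sign matrix, seen in the span of the `m`-th of a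
sequence of fast growing blocks of the sequence, and `Y_A` the closed sum of the `E_m`, `m ∈ A`. If
`Y_A ≃ Y_B` and `n ∈ A \ B` then the identity of `E_n` factors through `Y_B`. Functionals on the sum
of the `E_m`, `m > n`, extend simultaneously and boundedly to the whole span of the blocks (peak and
flat parts, averaging over cyclic shifts of the blocks and 2-convexity), and there a trace
inequality, based on the Kashin property `‖x‖_2 ≤ A ‖x‖_1 / √N` of `E_n`, contradicts the
factorisation for large `n`.
-/

open Pool.Agent.Helper52.CS

theorem Pool.Agent.Results.MP_c423d7_an.SubsymmetricType2.result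
    {X : Type*} [NormedAddCommGroup X] [NormedSpace ℝ X] [CompleteSpace X]
    (e : ℕ → X) (C T : ℝ) (he : Subsym e C)
    (ht : Type2 (Submodule.span ℝ (Set.range e)).topologicalClosure T)
    (hne : IsEmpty ((Submodule.span ℝ (Set.range e)).topologicalClosure ≃L[ℝ]
      lp (fun _ : ℕ => ℝ) 2)) :
    ∃ Y : Set ℕ → Submodule ℝ X, (∀ A, IsClosed (Y A : Set X)) ∧
      (∀ A : Set ℕ, A.Infinite → ¬ FiniteDimensional ℝ (Y A)) ∧
      (∀ A B : Set ℕ, Nonempty (Y A ≃L[ℝ] Y B) → (A \ B).Finite ∧ (B \ A).Finite) ∧
      ∃ A : ℝ → Set ℕ, ∀ r t : ℝ, r ≠ t →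
        ¬ FiniteDimensional ℝ (Y (A r)) ∧ IsEmpty (Y (A r) ≃L[ℝ] Y (A t)) :=
  main e C T he (fun I x hx => ht I x (fun l => Submodule.le_topologicalClosure _ (hx l))) hne
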